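import Mathlib

/-!
# The generalized Tate conjecture over finite fields: definitions
-/

set_option autoImplicit false

namespace Pool.Agent.H485R3.GTC

open NumberField NumberField.IsCMField

section

variable {I : Type*} {Ω : Type*} [Field Ω] (V : I → Type*) [∀ i, AddCommGroup (V i)]
  [∀ i, Module Ω (V i)] (F : ∀ i, V i →ₗ[Ω] V i) (q : Ω)

/-- The multilinear form `ψ` in variables `v k ∈ V (t k)` is a product of at least `ν` pairings
`B k` of two variables of the same type that satisfy `B k (F x, F y) = q B k (x, y)`, and of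
linear forms in the other variables. -/
def IsDivisorMultiple (ν : ℕ) {n : ℕ} (t : Fin n → I)
    (ψ : MultilinearMap Ω (fun k => V (t k)) Ω) : Prop :=
  ∃ (τ : Equiv.Perm (Fin n)) (B : ∀ k, V (t k) →ₗ[Ω] V (t (τ k)) →ₗ[Ω] Ω)
    (f : ∀ k, V (t k) →ₗ[Ω] Ω),
    (∀ k, τ (τ k) = k) ∧ (∀ k, t (τ k) = t k) ∧ 2 * ν ≤ Nat.card {k // τ k ≠ k} ∧
    (∀ k x y, τ k ≠ k → B k (F (t k) x) (F (t (τ k)) y) = q * B k x y) ∧
    ∀ v, ψ v = (∏ k with k < τ k, B k (v k) (v (τ k))) * ∏ k with τ k = k, f k (v k)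

/-- The span of the eigenforms of Frobenius whose eigenvalues are divisible by `q ^ ν` in the ring
of algebraic integers. -/
def galoisConiveau (ν : ℕ) {n : ℕ} (t : Fin n → I) :
    Submodule Ω (MultilinearMap Ω (fun k => V (t k)) Ω) :=
  Submodule.span Ω {φ | ∃ lam : Ω, IsIntegral ℤ (lam / q ^ ν) ∧
    ∀ v, φ (fun k => F (t k) (v k)) = lam * φ v}

end

/-- The Galois coniveau filtration on multilinear forms on Frobenius modules `V i` with
eigenvalues conjugate to `π i` is divisorial. -/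
def ConiveauIsDivisorial {I : Type} {K : I → Type} [∀ i, Field (K i)] (π : ∀ i, K i) (q : ℕ) :
    Prop :=
  ∀ {Ω : Type} [Field Ω] [IsAlgClosed Ω] [CharZero Ω] (V : I → Type) [∀ i, AddCommGroup (V i)]
    [∀ i, Module Ω (V i)] [∀ i, FiniteDimensional Ω (V i)] (F : ∀ i, V i →ₗ[Ω] V i),
    (∀ i, Submodule.span Ω {v : V i | ∃ σ : K i →+* Ω, F i v = σ (π i) • v} = ⊤) →
    ∀ {n : ℕ} (t : Fin n → I) (ν : ℕ),
      galoisConiveau V F (q : Ω) ν t ≤ Submodule.span Ω {ψ | IsDivisorMultiple V F (q : Ω) ν t ψ}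

/-- Every family of sets of embeddings without complex conjugate pairs consists of embeddings at
which the `π i` are units, for some extension of the `p`-adic absolute value. -/
def AllTypesOccur (p : ℕ) [Fact p.Prime] {I : Type} {K : I → Type} [∀ i, Field (K i)]
    [∀ i, NumberField (K i)] [∀ i, IsCMField (K i)] (π : ∀ i, K i) : Prop :=
  ∀ T : ∀ i, Set (K i →+* AlgebraicClosure ℚ),
    (∀ i, ∀ τ ∈ T i, τ.comp (complexConj (K i) : K i →+* K i) ∉ T i) →
    ∃ e : AlgebraicClosure ℚ →+* PadicAlgCl p, ∀ i, ∀ τ ∈ T i, ‖e (τ (π i))‖ = 1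

theorem isAlgebraic_closure : Algebra.IsAlgebraic ℚ (AlgebraicClosure ℚ) := by
  have h : @Algebra.IsAlgebraic ℚ (AlgebraicClosure ℚ) _ _ (AlgebraicClosure.instAlgebra ℚ) :=
    AlgebraicClosure.isAlgebraic ℚ
  have e : (AlgebraicClosure.instAlgebra ℚ : Algebra ℚ (AlgebraicClosure ℚ)) =
    DivisionRing.toRatAlgebra := Subsingleton.elim _ _
  rw [e] at h
  exact h

theorem normal_closure : Normal ℚ (AlgebraicClosure ℚ) := by
  have h1 := isAlgebraic_closure
  have h2 : IsAlgClosure ℚ (AlgebraicClosure ℚ) := ⟨inferInstance, h1⟩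
  exact IsAlgClosure.normal ℚ _

/-- a maximal matching -/
theorem exists_max_matching {n : ℕ} {X : Type*} (σ : X → X) (hσ : ∀ z, σ (σ z) = z)
    (x : Fin n → X) :
    ∃ τ : Equiv.Perm (Fin n), (∀ k, τ (τ k) = k) ∧ (∀ k, τ k ≠ k → x (τ k) = σ (x k)) ∧
      ∀ k l, k ≠ l → τ k = k → τ l = l → x l ≠ σ (x k) := by
  classical
  let P : Equiv.Perm (Fin n) → Prop := fun τ =>
    (∀ k, τ (τ k) = k) ∧ (∀ k, τ k ≠ k → x (τ k) = σ (x k))
  obtain ⟨τ, hτ, hmax⟩ := Finset.exists_max_image
    ((Finset.univ : Finset (Equiv.Perm (Fin n))).filter P) (fun τ => τ.support.card)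
    ⟨1, by
      rw [Finset.mem_filter]
      refine ⟨Finset.mem_univ _, fun k => rfl, fun k hk => absurd rfl hk⟩⟩
  rw [Finset.mem_filter] at hτ
  obtain ⟨-, h1, h2⟩ := hτ
  refine ⟨τ, h1, h2, fun k l hkl hk hl hx => ?_⟩
  let τ' : Equiv.Perm (Fin n) := τ * Equiv.swap k l
  have e1 : τ' k = l := by
    change τ (Equiv.swap k l k) = l
    rw [Equiv.swap_apply_left, hl]
  have e2 : τ' l = k := by
    change τ (Equiv.swap k l l) = k
    rw [Equiv.swap_apply_right, hk]
  have e3 : ∀ m, m ≠ k → m ≠ l → τ' m = τ m := by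
    intro m hm1 hm2
    change τ (Equiv.swap k l m) = τ m
    rw [Equiv.swap_apply_of_ne_of_ne hm1 hm2]
  have hP : P τ' := by
    constructor
    · intro m
      by_cases hm1 : m = k
      · rw [hm1, e1, e2]
      · by_cases hm2 : m = l
        · rw [hm2, e2, e1]
        · rw [e3 m hm1 hm2, e3 (τ m), h1]
          · intro h
            apply hm1
            rw [← h1 m, h, hk]
          · intro h
            apply hm2
            rw [← h1 m, h, hl]
    · intro m hm
      by_cases hm1 : m = k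
      · rw [hm1, e1, hx]
      · by_cases hm2 : m = l
        · rw [hm2, e2, hx, hσ]
        · rw [e3 m hm1 hm2] at hm ⊢
          exact h2 m hm
  have h3 := hmax τ' (Finset.mem_filter.2 ⟨Finset.mem_univ _, hP⟩)
  have h4 : τ.support ⊂ τ'.support := by
    rw [Finset.ssubset_iff_of_subset]
    · refine ⟨k, ?_, ?_⟩
      · rw [Equiv.Perm.mem_support, e1]
        exact hkl.symm
      · rw [Equiv.Perm.mem_support, not_not]
        exact hk
    · intro m hm
      rw [Equiv.Perm.mem_support] at hm ⊢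
      have hm1 : m ≠ k := fun h => hm (h ▸ hk)
      have hm2 : m ≠ l := fun h => hm (h ▸ hl)
      rwa [e3 m hm1 hm2]
  have h5 := Finset.card_lt_card h4
  omega

/-- regrouping a product along a matching -/
theorem prod_matching {n : ℕ} {M : Type*} [CommMonoid M] (τ : Equiv.Perm (Fin n))
    (hτ : ∀ k, τ (τ k) = k) (g : Fin n → M) :
    ∏ k, g k = (∏ k with k < τ k, g k * g (τ k)) * ∏ k with τ k = k, g k := by
  classical
  rw [Finset.prod_mul_distrib]
  have h1 : ∏ k with k < τ k, g (τ k) = ∏ k with τ k < k, g k := by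
    refine Finset.prod_bij' (fun k _ => τ k) (fun k _ => τ k) ?_ ?_ (fun k _ => hτ k)
      (fun k _ => hτ k) (fun k _ => rfl)
    · intro k hk
      simp only [Finset.mem_filter, Finset.mem_univ, true_and] at hk ⊢
      rwa [hτ]
    · intro k hk
      simp only [Finset.mem_filter, Finset.mem_univ, true_and] at hk ⊢
      rwa [hτ]
  rw [h1, ← Finset.prod_filter_mul_prod_filter_not Finset.univ (fun k => k < τ k), mul_assoc]
  congr 1
  rw [← Finset.prod_filter_mul_prod_filter_not (Finset.univ.filter fun k => ¬ k < τ k)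
    (fun k => τ k < k), Finset.filter_filter, Finset.filter_filter]
  congr 1
  · apply Finset.prod_congr _ fun _ _ => rfl
    ext k
    simp only [Finset.mem_filter, Finset.mem_univ, true_and]
    exact ⟨fun h => h.2, fun h => ⟨h.asymm, h⟩⟩
  · apply Finset.prod_congr _ fun _ _ => rfl
    ext k
    simp only [Finset.mem_filter, Finset.mem_univ, true_and]
    exact ⟨fun h => le_antisymm (not_lt.1 h.1) (not_lt.1 h.2), fun h => by rw [h]; simp⟩

end Pool.Agent.H485R3.GTC
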