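import Mathlib
import Pool.Agent.H485R3.GTC.Defs
import Pool.Agent.H485R3.Exact.Generate

/-!
# The generalized Tate conjecture over finite fields: direct part
-/

set_option autoImplicit false

namespace Pool.Agent.H485R3.GTC

open NumberField NumberField.IsCMField Pool.Agent.H485R3 Pool.Agent.H925R2
  Pool.Agent.H485R3.Exact Polynomial

theorem norm_p_pow (p : ℕ) [Fact p.Prime] (a : ℕ) (ha : 0 < a) :
    0 < ‖(p : PadicAlgCl p) ^ a‖ ∧ ‖(p : PadicAlgCl p) ^ a‖ < 1 := by
  have hp : p.Prime := Fact.out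
  have h1 : (p : PadicAlgCl p) = algebraMap ℚ_[p] (PadicAlgCl p) (p : ℚ_[p]) := by simp
  have h2 : ‖(p : PadicAlgCl p)‖ < 1 := by
    rw [h1, PadicAlgCl.norm_extends]
    exact Padic.norm_p_lt_one
  have h3 : 0 < ‖(p : PadicAlgCl p)‖ := norm_pos_iff.2 (by exact_mod_cast hp.ne_zero)
  rw [norm_pow]
  exact ⟨pow_pos h3 _, pow_lt_one₀ h3.le h2 ha.ne'⟩

theorem direct {I : Type} {K : I → Type} [∀ i, Field (K i)] [∀ i, NumberField (K i)]
    [∀ i, IsCMField (K i)] (p a : ℕ) [Fact p.Prime] (ha : 0 < a) (π : ∀ i, K i)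
    (hπ : ∀ i, IsIntegral ℤ (π i) ∧ ∀ φ : K i →+* ℂ, ‖φ (π i)‖ ^ 2 = (p : ℝ) ^ a)
    (hall : AllTypesOccur p π) : ConiveauIsDivisorial π (p ^ a) := by
  classical
  intro Ω _ _ _ V _ _ _ F hF n t ν
  unfold galoisConiveau
  rw [Submodule.span_le]
  rintro φ ⟨lam, hlam, hφ⟩
  have hp : p.Prime := Fact.out
  set q : Ω := ((p ^ a : ℕ) : Ω) with hq
  have hq0 : q ≠ 0 := by
    rw [hq]
    exact_mod_cast (pow_pos hp.pos a).ne'
  obtain ⟨hQ0, hQ1⟩ := norm_p_pow p a ha
  set Q : ℝ := ‖(p : PadicAlgCl p) ^ a‖ with hQ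
  have hpa : ∀ i, π i * complexConj (K i) (π i) = (p : K i) ^ a := fun i =>
    mul_conj_eq p (π i) a (hπ i).2
  choose d b μ hμE hμ using fun i => exists_eigenbasis (F i)
    {y : Ω | ∃ σ : K i →+* Ω, y = σ (π i)} (by
      rw [← hF i]
      congr 1
      ext v
      constructor
      · rintro ⟨y, ⟨σ, rfl⟩, h⟩
        exact ⟨σ, h⟩
      · rintro ⟨σ, h⟩
        exact ⟨σ (π i), ⟨σ, rfl⟩, h⟩)
  let cp : (∀ k, Fin (d (t k))) → MultilinearMap Ω (fun k => V (t k)) Ω := fun J =>
    (MultilinearMap.mkPiAlgebra Ω (Fin n) Ω).compLinearMap (fun k => (b (t k)).coord (J k))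
  have hcp : ∀ J v, cp J v = ∏ k, (b (t k)).coord (J k) (v k) := by
    intro J v
    change (MultilinearMap.mkPiAlgebra Ω (Fin n) Ω) (fun k => (b (t k)).coord (J k) (v k)) = _
    rw [MultilinearMap.mkPiAlgebra_apply]
  have hexp : φ = ∑ J : (∀ k, Fin (d (t k))), φ (fun k => b (t k) (J k)) • cp J := by
    apply Module.Basis.ext_multilinear (fun k => b (t k))
    intro J
    rw [sum_apply, Finset.sum_eq_single J]
    · rw [smul_apply, hcp]
      have h1 : ∏ k, (b (t k)).coord (J k) (b (t k) (J k)) = 1 := by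
        apply Finset.prod_eq_one
        intro k _
        simp
      rw [h1, smul_eq_mul, mul_one]
    · intro J' _ hJ
      rw [smul_apply, hcp]
      obtain ⟨k, hk⟩ := Function.ne_iff.1 hJ
      have h1 : ∏ k, (b (t k)).coord (J' k) (b (t k) (J k)) = 0 := by
        apply Finset.prod_eq_zero (Finset.mem_univ k)
        rw [Module.Basis.coord_apply, Module.Basis.repr_self, Finsupp.single_apply,
          if_neg (fun h => hk h.symm)]
      rw [h1, smul_zero]
    · intro h
      exact absurd (Finset.mem_univ J) h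
  rw [SetLike.mem_coe, hexp]
  refine Submodule.sum_mem _ fun J _ => ?_
  by_cases h0 : φ (fun k => b (t k) (J k)) = 0
  · rw [h0, zero_smul]
    exact Submodule.zero_mem _
  refine Submodule.smul_mem _ _ (Submodule.subset_span ?_)
  have hprod : ∏ k, μ (t k) (J k) = lam := by
    have h1 := hφ (fun k => b (t k) (J k))
    have h2 : (fun k => F (t k) (b (t k) (J k))) =
        fun k => (μ (t k) (J k)) • b (t k) (J k) := funext fun k => hμ (t k) (J k)
    rw [h2, MultilinearMap.map_smul_univ, smul_eq_mul] at h1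
    exact mul_right_cancel₀ h0 h1
  -- lifting to the algebraic numbers
  have halg := isAlgebraic_closure
  let j : AlgebraicClosure ℚ →ₐ[ℚ] Ω := IsAlgClosed.lift
  have hρ : ∀ k, ∃ ρ : K (t k) →+* AlgebraicClosure ℚ, j (ρ (π (t k))) = μ (t k) (J k) := by
    intro k
    obtain ⟨σ, hσ⟩ := hμE (t k) (J k)
    obtain ⟨x, hx, hxy⟩ := exists_root_lift (minpoly.ne_zero
      (Algebra.IsIntegral.isIntegral (R := ℚ) (π (t k)))) (IsAlgClosed.splits _) j (σ (π (t k)))
      (minpoly_root (π (t k)) σ)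
    obtain ⟨ρ, rfl⟩ := root_minpoly (π (t k)) x hx
    exact ⟨ρ, hxy.trans hσ.symm⟩
  choose ρ hρ using hρ
  have hμ0 : ∀ k, μ (t k) (J k) ≠ 0 := by
    intro k h
    obtain ⟨σ, hσ⟩ := hμE (t k) (J k)
    have h1 : π (t k) ≠ 0 := by
      intro h2
      have h3 := hpa (t k)
      rw [h2, zero_mul] at h3
      exact pow_ne_zero _ (by exact_mod_cast hp.ne_zero) h3.symm
    rw [h] at hσ
    exact (map_ne_zero σ).2 h1 hσ.symm
  let σ : I × Ω → I × Ω := fun z => (z.1, q / z.2)
  have hσσ : ∀ z, σ (σ z) = z := by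
    rintro ⟨i, z⟩
    simp only [σ]
    refine Prod.ext rfl ?_
    simp only
    by_cases hz : z = 0
    · rw [hz, div_zero, div_zero]
    · field_simp
  obtain ⟨τ, hτ1, hτ2, hτ3⟩ := exists_max_matching σ hσσ (fun k => (t k, μ (t k) (J k)))
  have hτt : ∀ k, t (τ k) = t k := by
    intro k
    by_cases h : τ k = k
    · rw [h]
    · exact congrArg Prod.fst (hτ2 k h)
  have hτμ : ∀ k, τ k ≠ k → μ (t k) (J k) * μ (t (τ k)) (J (τ k)) = q := by
    intro k h
    have h1 : μ (t (τ k)) (J (τ k)) = q / μ (t k) (J k) := congrArg Prod.snd (hτ2 k h)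
    rw [h1, mul_div_cancel₀ _ (hμ0 k)]
  have hjq : j ((p : AlgebraicClosure ℚ) ^ a) = q := by
    rw [map_pow, map_natCast, hq, Nat.cast_pow]
  -- the family of types
  let T : ∀ i, Set (K i →+* AlgebraicClosure ℚ) := fun i =>
    {θ | ∃ k, t k = i ∧ τ k = k ∧ j (θ (π i)) = μ (t k) (J k)}
  have hT : ∀ i, ∀ θ ∈ T i, θ.comp (complexConj (K i) : K i →+* K i) ∉ T i := by
    rintro i θ ⟨k, hk1, hk2, hk3⟩ ⟨l, hl1, hl2, hl3⟩
    have h1 : μ (t k) (J k) * μ (t l) (J l) = q := by
      rw [← hk3, ← hl3, ← map_mul]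
      change j (θ (π i) * θ (complexConj (K i) (π i))) = q
      rw [← map_mul θ, hpa i, map_pow, map_natCast, hjq]
    by_cases hkl : k = l
    · -- supersingular numbers do not occur
      rw [← hkl] at hl3
      have h2 : θ (π i) = θ (complexConj (K i) (π i)) :=
        j.toRingHom.injective (hk3.trans hl3.symm)
      have h3 : π i = complexConj (K i) (π i) := θ.injective h2
      obtain ⟨e, he⟩ := hall (fun i' => {θ' | ∃ h : i' = i, θ' = h ▸ θ}) (by
        rintro i' θ' ⟨rfl, rfl⟩ ⟨h5, h4⟩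
        apply complexConj_ne_one (K i')
        ext z
        apply θ'.injective
        exact DFunLike.congr_fun h4 z)
      have h4 := he i θ ⟨rfl, rfl⟩
      have h5 : (e (θ (π i))) ^ 2 = (p : PadicAlgCl p) ^ a := by
        have h6 := hpa i
        rw [← h3] at h6
        rw [sq, ← map_mul, ← map_mul, h6, map_pow, map_pow, map_natCast, map_natCast]
      have h6 : ‖e (θ (π i))‖ ^ 2 = Q := by
        rw [hQ, ← h5, norm_pow]
      rw [h4, one_pow] at h6
      linarith
    · apply hτ3 k l hkl hk2 hl2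
      simp only [σ]
      refine Prod.ext (hl1.trans hk1.symm) ?_
      simp only
      rw [← h1, mul_div_cancel_left₀ _ (hμ0 k)]
  obtain ⟨e, he⟩ := hall T hT
  let β : Fin n → AlgebraicClosure ℚ := fun k => ρ k (π (t k))
  have hβj : ∀ k, j (β k) = μ (t k) (J k) := hρ
  have hβ1 : ∀ k, τ k = k → ‖e (β k)‖ = 1 := fun k hk =>
    he (t k) (ρ k) ⟨k, rfl, hk, hρ k⟩
  have hβ2 : ∀ k, τ k ≠ k → ‖e (β k)‖ * ‖e (β (τ k))‖ = Q := by
    intro k hk
    have h1 : β k * β (τ k) = (p : AlgebraicClosure ℚ) ^ a := by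
      apply j.toRingHom.injective
      change j (β k * β (τ k)) = j _
      rw [map_mul, hβj, hβj, hτμ k hk, hjq]
    rw [← norm_mul, ← map_mul, h1, map_pow, map_natCast]
  have hPP : (∏ k, ‖e (β k)‖) ^ 2 = Q ^ (Nat.card {k // τ k ≠ k}) := by
    have h1 : ∏ k, ‖e (β k)‖ = ∏ k, ‖e (β (τ k))‖ :=
      (Equiv.prod_comp τ fun k => ‖e (β k)‖).symm
    have h2 : ∀ k, ‖e (β k)‖ * ‖e (β (τ k))‖ = if τ k ≠ k then Q else 1 := by
      intro k
      by_cases hk : τ k = k
      · rw [if_neg (not_not.2 hk), hk, hβ1 k hk, mul_one]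
      · rw [if_pos hk, hβ2 k hk]
    rw [sq]
    conv_lhs =>
      arg 2
      rw [h1]
    rw [← Finset.prod_mul_distrib, Finset.prod_congr rfl (fun k _ => h2 k), Finset.prod_ite,
      Finset.prod_const, Finset.prod_const_one, mul_one, Nat.card_eq_fintype_card,
      Fintype.card_subtype]
  have hPle : ∏ k, ‖e (β k)‖ ≤ Q ^ ν := by
    have h1 : j ((∏ k, β k) / ((p : AlgebraicClosure ℚ) ^ a) ^ ν) = lam / q ^ ν := by
      rw [map_div₀, map_prod, map_pow, hjq, ← hprod, Finset.prod_congr rfl fun k _ => hβj k]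
    rw [← h1] at hlam
    have h2 : IsIntegral ℤ ((∏ k, β k) / ((p : AlgebraicClosure ℚ) ^ a) ^ ν) :=
      (isIntegral_algHom_iff (j.restrictScalars ℤ) j.toRingHom.injective).1 hlam
    have h3 := norm_le_one_of_isIntegral p _ (h2.map e.toIntAlgHom)
    change ‖e _‖ ≤ 1 at h3
    rw [map_div₀, map_prod, map_pow, map_pow, map_natCast, norm_div, norm_pow, norm_prod,
      div_le_one (pow_pos hQ0 _)] at h3
    exact h3
  have hcard : 2 * ν ≤ Nat.card {k // τ k ≠ k} := by
    have h1 : Q ^ (Nat.card {k // τ k ≠ k}) ≤ Q ^ (2 * ν) := by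
      rw [← hPP, mul_comm 2 ν, pow_mul]
      exact pow_le_pow_left₀ (Finset.prod_nonneg fun k _ => norm_nonneg _) hPle 2
    exact (pow_le_pow_iff_right_of_lt_one₀ hQ0 hQ1).1 h1
  have hcoord : ∀ i j x, (b i).coord j (F i x) = μ i j * (b i).coord j x := by
    intro i j x
    have h1 : ((b i).coord j).comp (F i) = μ i j • (b i).coord j := by
      apply (b i).ext
      intro l
      rw [LinearMap.comp_apply, hμ, map_smul, LinearMap.smul_apply, Module.Basis.coord_apply,
        Module.Basis.repr_self, Finsupp.single_apply]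
      by_cases h : l = j
      · rw [h]
      · rw [if_neg h, smul_zero, smul_zero]
    exact congrArg (fun f : V i →ₗ[Ω] Ω => f x) h1
  refine ⟨τ, fun k => (LinearMap.mul Ω Ω).compl₁₂ ((b (t k)).coord (J k))
    ((b (t (τ k))).coord (J (τ k))), fun k => (b (t k)).coord (J k), hτ1, hτt, hcard, ?_, ?_⟩
  · intro k x y hk
    simp only [LinearMap.compl₁₂_apply, LinearMap.mul_apply', hcoord]
    rw [← hτμ k hk]
    ring
  · intro v
    rw [hcp, prod_matching τ hτ1]
    simp only [LinearMap.compl₁₂_apply, LinearMap.mul_apply']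

end Pool.Agent.H485R3.GTC
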