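import Mathlib
import Pool.Agent.H485R3.GTC.Direct

/-!
# The generalized Tate conjecture over finite fields: converse part
-/

set_option autoImplicit false

namespace Pool.Agent.H485R3.GTC

open NumberField NumberField.IsCMField Pool.Agent.H485R3 Pool.Agent.H925R2
  Pool.Agent.H485R3.Exact Polynomial

/-- a number of small `p`-adic absolute values has a power divisible by `p ^ a` -/
theorem exists_pow_div (p a : ℕ) [Fact p.Prime] (x : AlgebraicClosure ℚ) (hx : IsIntegral ℤ x)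
    (h : ∀ e : AlgebraicClosure ℚ →+* PadicAlgCl p, ‖e x‖ < 1) :
    ∃ N : ℕ, 0 < N ∧ IsIntegral ℤ (x ^ N / ((p ^ a : ℕ) : AlgebraicClosure ℚ)) := by
  classical
  have hp : p.Prime := Fact.out
  have halg := isAlgebraic_closure
  have hnor := normal_closure
  have hxQ : IsIntegral ℚ x := Algebra.IsIntegral.isIntegral x
  set f := minpoly ℚ x with hf
  have hf0 : f ≠ 0 := minpoly.ne_zero hxQ
  -- every root is a value
  have hval : ∀ y ∈ f.rootSet (PadicAlgCl p), ‖y‖ < 1 := by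
    intro y hy
    obtain ⟨e, he⟩ : ∃ e : AlgebraicClosure ℚ →ₐ[ℚ] PadicAlgCl p, e x = y := by
      rw [mem_rootSet] at hy
      have h1 := IntermediateField.exists_algHom_of_splits_of_aeval
        (F := ℚ) (E := AlgebraicClosure ℚ) (K := PadicAlgCl p)
        (fun s => ⟨Algebra.IsIntegral.isIntegral s, IsAlgClosed.splits _⟩)
        (x := x) (y := y) hy.2
      exact h1
    have h1 := h e.toRingHom
    change ‖e x‖ < 1 at h1
    rwa [he] at h1
  have hfin : (f.rootSet (PadicAlgCl p)).Finite := f.rootSet_finite _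
  obtain ⟨r, hr0, hr1, hr⟩ : ∃ r : ℝ, 0 ≤ r ∧ r < 1 ∧
      ∀ e : AlgebraicClosure ℚ →ₐ[ℚ] PadicAlgCl p, ‖e x‖ ≤ r := by
    have hmem : ∀ e : AlgebraicClosure ℚ →ₐ[ℚ] PadicAlgCl p,
        e x ∈ hfin.toFinset := by
      intro e
      rw [Set.Finite.mem_toFinset, mem_rootSet]
      refine ⟨hf0, ?_⟩
      rw [aeval_algHom_apply, minpoly.aeval, map_zero]
    obtain ⟨y, hy1, hy2⟩ := hfin.toFinset.exists_max_image (fun y => ‖y‖)
      ⟨_, hmem IsAlgClosed.lift⟩
    exact ⟨‖y‖, norm_nonneg _, hval y (hfin.mem_toFinset.1 hy1), fun e => hy2 _ (hmem e)⟩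
  have hQ0 : 0 < ‖(p : PadicAlgCl p) ^ a‖ :=
    norm_pos_iff.2 (pow_ne_zero _ (by exact_mod_cast hp.ne_zero))
  obtain ⟨N, hN⟩ := exists_pow_lt_of_lt_one hQ0 hr1
  refine ⟨N + 1, Nat.succ_pos _, isIntegral_of_norm_le _ ?_⟩
  intro l _ e
  rw [map_div₀, map_pow, map_natCast, norm_div, norm_pow]
  by_cases hl : l = p
  · subst hl
    have h1 : ‖((l ^ a : ℕ) : PadicAlgCl l)‖ = ‖(l : PadicAlgCl l) ^ a‖ := by
      rw [Nat.cast_pow]
    rw [h1, div_le_one hQ0]
    calc ‖e x‖ ^ (N + 1) ≤ r ^ (N + 1) := pow_le_pow_left₀ (norm_nonneg _) (hr e) _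
      _ ≤ r ^ N := pow_le_pow_of_le_one hr0 hr1.le (Nat.le_succ N)
      _ ≤ _ := hN.le
  · have h1 : ‖((p ^ a : ℕ) : PadicAlgCl l)‖ = 1 := by
      rw [Nat.cast_pow, norm_pow]
      have h4 : (p : PadicAlgCl l) = algebraMap ℚ_[l] (PadicAlgCl l) (p : ℚ_[l]) := by simp
      rw [h4, PadicAlgCl.norm_extends]
      have h5 : ‖(p : ℚ_[l])‖ = 1 := by
        rw [Padic.norm_natCast_eq_one_iff]
        exact (Nat.coprime_primes (Fact.out : l.Prime) hp).2 hl
      rw [h5, one_pow]
    rw [h1, div_one]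
    exact pow_le_one₀ (norm_nonneg _) (norm_le_one_of_isIntegral l _ (hx.map e.toRingHom.toIntAlgHom))

theorem converse {I : Type} [Finite I] {K : I → Type} [∀ i, Field (K i)]
    [∀ i, NumberField (K i)] [∀ i, IsCMField (K i)] (p a : ℕ) [Fact p.Prime]
    (π : ∀ i, K i)
    (hπ : ∀ i, IsIntegral ℤ (π i) ∧ ∀ φ : K i →+* ℂ, ‖φ (π i)‖ ^ 2 = (p : ℝ) ^ a)
    (hgen : ∀ i, Algebra.adjoin ℚ {π i} = ⊤)
    (hdiv : ConiveauIsDivisorial π (p ^ a)) : AllTypesOccur p π := by
  classical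
  intro T hT
  by_contra hno
  push Not at hno
  have hp : p.Prime := Fact.out
  have halg := isAlgebraic_closure
  have hpa : ∀ i, π i * complexConj (K i) (π i) = (p : K i) ^ a := fun i =>
    mul_conj_eq p (π i) a (hπ i).2
  cases nonempty_fintype I
  have hfinT : ∀ i, Finite (T i) := by
    intro i
    have h1 : Finite (K i →+* AlgebraicClosure ℚ) :=
      Finite.of_injective (fun y : K i →+* AlgebraicClosure ℚ => y.toRatAlgHom) fun y y' hyy => by
        ext z
        exact DFunLike.congr_fun hyy z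
    infer_instance
  let S : Type := Σ i, T i
  have hfinS : Finite S := inferInstance
  cases nonempty_fintype S
  let val : S → AlgebraicClosure ℚ := fun s => s.2.1 (π s.1)
  have hvint : ∀ s, IsIntegral ℤ (val s) := fun s => (hπ s.1).1.map s.2.1.toIntAlgHom
  let x : AlgebraicClosure ℚ := ∏ s, val s
  have hxint : IsIntegral ℤ x := IsIntegral.prod _ fun s _ => hvint s
  have hx : ∀ e : AlgebraicClosure ℚ →+* PadicAlgCl p, ‖e x‖ < 1 := by
    intro e
    obtain ⟨i, τ, hτ, hne⟩ := hno e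
    have h1 : ∀ s : S, ‖e (val s)‖ ≤ 1 := fun s =>
      norm_le_one_of_isIntegral p _ ((hvint s).map e.toIntAlgHom)
    have h2 : ‖e (val ⟨i, τ, hτ⟩)‖ < 1 := lt_of_le_of_ne (h1 _) hne
    simp only [x]
    rw [map_prod, norm_prod, ← Finset.mul_prod_erase _ _ (Finset.mem_univ (⟨i, τ, hτ⟩ : S))]
    have h3 : ∏ s ∈ (Finset.univ : Finset S).erase ⟨i, τ, hτ⟩, ‖e (val s)‖ ≤ 1 :=
      Finset.prod_le_one (fun s _ => norm_nonneg _) fun s _ => h1 s
    have h4 : 0 ≤ ∏ s ∈ (Finset.univ : Finset S).erase ⟨i, τ, hτ⟩, ‖e (val s)‖ :=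
      Finset.prod_nonneg fun s _ => norm_nonneg _
    calc _ ≤ ‖e (val ⟨i, τ, hτ⟩)‖ * 1 := mul_le_mul_of_nonneg_left h3 (norm_nonneg _)
      _ < 1 := by rw [mul_one]; exact h2
  obtain ⟨N, hN0, hN⟩ := exists_pow_div p a x hxint hx
  -- the form
  let m : ℕ := Fintype.card S
  let en : Fin m ≃ S := (Fintype.equivFin S).symm
  let w : Fin (N * m) → S := fun k => en (finProdFinEquiv.symm k).2
  let t : Fin (N * m) → I := fun k => (w k).1
  let V : I → Type := fun i => (K i →+* AlgebraicClosure ℚ) → AlgebraicClosure ℚ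
  have hfinK : ∀ i, Finite (K i →+* AlgebraicClosure ℚ) := fun i =>
    Finite.of_injective (fun y : K i →+* AlgebraicClosure ℚ => y.toRatAlgHom) fun y y' hyy => by
      ext z
      exact DFunLike.congr_fun hyy z
  let F : ∀ i, V i →ₗ[AlgebraicClosure ℚ] V i := fun i =>
    LinearMap.pi fun σ => (σ (π i)) • LinearMap.proj σ
  have hFv : ∀ i (v : V i) σ, F i v σ = σ (π i) * v σ := fun i v σ => rfl
  have hfdV : ∀ i, FiniteDimensional (AlgebraicClosure ℚ) (V i) := fun i => by
    simp only [V]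
    infer_instance
  have hFsingle : ∀ i (σ : K i →+* AlgebraicClosure ℚ),
      F i (Pi.single σ 1) = σ (π i) • (Pi.single σ 1 : V i) := by
    intro i σ
    funext σ'
    rw [hFv]
    by_cases h : σ' = σ
    · subst h
      rfl
    · change σ' (π i) * (Pi.single σ (1 : AlgebraicClosure ℚ) : V i) σ' =
        σ (π i) * (Pi.single σ (1 : AlgebraicClosure ℚ) : V i) σ'
      rw [Pi.single_eq_of_ne h, mul_zero, mul_zero]
  have hF : ∀ i, Submodule.span (AlgebraicClosure ℚ)
      {v : V i | ∃ σ : K i →+* AlgebraicClosure ℚ, F i v = σ (π i) • v} = ⊤ := by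
    intro i
    cases nonempty_fintype (K i →+* AlgebraicClosure ℚ)
    rw [← top_le_iff, ← (Pi.basisFun (AlgebraicClosure ℚ) (K i →+* AlgebraicClosure ℚ)).span_eq]
    apply Submodule.span_mono
    rintro _ ⟨σ, rfl⟩
    refine ⟨σ, ?_⟩
    rw [Pi.basisFun_apply]
    exact hFsingle i σ
  let φ : MultilinearMap (AlgebraicClosure ℚ) (fun k => V (t k)) (AlgebraicClosure ℚ) :=
    (MultilinearMap.mkPiAlgebra (AlgebraicClosure ℚ) (Fin (N * m))
      (AlgebraicClosure ℚ)).compLinearMap (fun k => LinearMap.proj (w k).2.1)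
  have hφ : ∀ v, φ v = ∏ k, v k (w k).2.1 := by
    intro v
    change (MultilinearMap.mkPiAlgebra (AlgebraicClosure ℚ) (Fin (N * m)) (AlgebraicClosure ℚ))
      (fun k => v k (w k).2.1) = _
    rw [MultilinearMap.mkPiAlgebra_apply]
  have hprod : ∏ k, val (w k) = x ^ N := by
    simp only [w]
    rw [← Equiv.prod_comp finProdFinEquiv]
    simp only [Equiv.symm_apply_apply]
    rw [Fintype.prod_prod_type]
    simp only
    rw [Finset.prod_const, Finset.card_univ, Fintype.card_fin]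
    congr 1
    exact Equiv.prod_comp en val
  have hmem : φ ∈ galoisConiveau V F ((p ^ a : ℕ) : AlgebraicClosure ℚ) 1 t := by
    apply Submodule.subset_span
    refine ⟨x ^ N, by rw [pow_one]; exact hN, fun v => ?_⟩
    rw [hφ, hφ, ← hprod, ← Finset.prod_mul_distrib]
    exact Finset.prod_congr rfl fun k _ => hFv _ _ _
  have hspan := hdiv V F hF t 1 hmem
  -- evaluation
  let z : ∀ k, V (t k) := fun k => Pi.single (w k).2.1 1
  have hφz : φ z = 1 := by
    rw [hφ]
    apply Finset.prod_eq_one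
    intro k _
    exact Pi.single_eq_same _ _
  have hpair : ∀ s₁ s₂ : S, s₁.1 = s₂.1 →
      val s₁ * val s₂ ≠ ((p ^ a : ℕ) : AlgebraicClosure ℚ) := by
    rintro ⟨i, y₁, h₁⟩ ⟨i', y₂, h₂⟩ hi hmul
    change i = i' at hi
    subst hi
    change y₁ (π i) * y₂ (π i) = _ at hmul
    have h3 : y₁ (π i) * y₁ (complexConj (K i) (π i)) = ((p ^ a : ℕ) : AlgebraicClosure ℚ) := by
      rw [← map_mul, hpa, map_pow, map_natCast, Nat.cast_pow]
    have h4 : y₁ (π i) ≠ 0 := by
      intro h0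
      rw [h0, zero_mul] at h3
      exact (Nat.cast_ne_zero.2 (pow_pos hp.pos a).ne') h3.symm
    have h5 : y₂ (π i) = y₁ (complexConj (K i) (π i)) :=
      mul_left_cancel₀ h4 (hmul.trans h3.symm)
    have h6 : y₂ = y₁.comp (complexConj (K i) : K i →+* K i) := by
      have h7 : y₂.toRatAlgHom =
          (y₁.comp (complexConj (K i) : K i →+* K i)).toRatAlgHom := by
        apply AlgHom.ext_of_adjoin_eq_top (hgen i)
        intro u hu
        rw [Set.mem_singleton_iff] at hu
        rw [hu]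
        exact h5
      ext u
      exact DFunLike.congr_fun h7 u
    exact hT i y₁ h₁ (h6 ▸ h₂)
  have hzero : ∀ ψ ∈ Submodule.span (AlgebraicClosure ℚ)
      {ψ | IsDivisorMultiple V F ((p ^ a : ℕ) : AlgebraicClosure ℚ) 1 t ψ}, ψ z = 0 := by
    intro ψ hψ
    induction hψ using Submodule.span_induction with
    | mem ψ h =>
      obtain ⟨τ, B, f, hτ1, hτ2, hcard, hB, hψ⟩ := h
      obtain ⟨k, hk⟩ : ∃ k, k < τ k := by
        by_contra hnone
        push Not at hnone
        have h1 : IsEmpty {k // τ k ≠ k} := by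
          refine ⟨fun ⟨k, hk⟩ => hk (le_antisymm (hnone k) ?_)⟩
          have h2 := hnone (τ k)
          rwa [hτ1] at h2
        rw [Nat.card_eq_zero.2 (Or.inl h1)] at hcard
        omega
      rw [hψ, Finset.prod_eq_zero (Finset.mem_filter.2 ⟨Finset.mem_univ k, hk⟩), zero_mul]
      by_contra hne
      have h1 := hB k (z k) (z (τ k)) hk.ne'
      have h2 : F (t k) (z k) = val (w k) • z k := hFsingle _ _
      have h3 : F (t (τ k)) (z (τ k)) = val (w (τ k)) • z (τ k) := hFsingle _ _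
      rw [h2, h3, map_smul, map_smul, LinearMap.smul_apply, smul_eq_mul, smul_eq_mul,
        ← mul_assoc] at h1
      have h4 := mul_right_cancel₀ hne h1
      exact hpair _ _ (hτ2 k) h4
    | zero => rfl
    | add ψ₁ ψ₂ _ _ h1 h2 => rw [add_apply, h1, h2, add_zero]
    | smul c ψ _ h1 => rw [smul_apply, h1, smul_zero]
  have h1 := hzero φ hspan
  rw [hφz] at h1
  exact one_ne_zero h1

end Pool.Agent.H485R3.GTC
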